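import Pool.Agent.Run7.h480.BF.All

/-!
# Bergman fans of matroids: every fan structure is `(r - l)`-connected through codimension one

`M` is an arbitrary loopless matroid of rank `r` on a finite set `E`, realizable or not. `berg M` is
its Bergman fan, a fan structure is a polyhedral fan with support `berg M`, `lin S` is its lineality
space, of dimension `l`. The theorem: every fan structure, in particular the coarse structure, is
`(r - l)`-connected through codimension one: after deleting fewer than `r - l` facets together with
all the ridges they contain, any two remaining facets are still connected through the remaining
ridges.

Proof, by induction on `r - l`. The stars of the fan are fan structures on Bergman fans of initial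
matroids, with larger lineality space. The stars of two rays outside a cone `T` (the intersection of
the deleted facets if their number is `r - l - 1`) can be connected since the complement of `T` in
the Bergman fan is connected. The reason for the latter is a statement on flats: if the linear space
of all vectors which give the same weight to all bases has dimension at most `r - 2`, then the flats
`F` with `- e_F` outside a coarse cone are connected by inclusions. In the passage from one ray to the
next one uses that a cone `u` of dimension `d` is contained in at least `r - d + 1` facets.
-/

set_option autoImplicit false

open Set Module

namespace Pool.Agent.Results.MP_b9d149_co.EveryFanStructure

open Run7.h480.BF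

/-- For every loopless matroid of rank `r`: the coarse structure is a fan structure on the Bergman
fan and is `(r - l)`-connected through codimension one, and so is every fan structure on the Bergman
fan, `l` being the dimension of its lineality space. -/
theorem result (E : Type) [Fintype E] (M : Matroid E) (r : ℕ)
    (hE : M.E = univ) (hl : M.Loopless) (hr : M.eRank = r) :
    ((IsFan (coarse M) ∧ ⋃₀ coarse M = berg M) ∧
      KConn r (r - dim (lin (coarse M))) (coarse M)) ∧
    (∀ S : Set (Set (E → ℝ)), IsFan S → ⋃₀ S = berg M → KConn r (r - dim (lin S)) S) :=
  main a_IND a_COA E M r hE hl hr

end Pool.Agent.Results.MP_b9d149_co.EveryFanStructure
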